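import Pool.Agent.H30.EE.TargetsI

/-!
# ICC: change of the chart in the matrix of the height inequality
-/

set_option autoImplicit false

namespace Pool.Agent.H63.EE

open MvPolynomial SC Pool.Agent.H27.LV Pool.Agent.H17.VG Pool.Agent.H30.EE

variable {R K : Type} [Field R] [Field K] [Algebra R K] {n r : ℕ}
  {L : Submodule K (Fin (n + 1) → K)} {J J' : Fin (r + 1) → Fin (n + 1)}
  {z z' : Fin (r + 1) → Fin (n + 1) → K}

/-- complement of the columns -/
abbrev Co (J : Fin (r + 1) → Fin (n + 1)) : Type := {j : Fin (n + 1) // ∀ i, J i ≠ j}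

theorem z_mem (h : Cht L J z) (i : Fin (r + 1)) : z i ∈ L := by
  rw [← h.span]
  exact Submodule.subset_span ⟨i, rfl⟩

theorem repr_mem (h : Cht L J z) {w : Fin (n + 1) → K} (hw : w ∈ L) :
    w = ∑ i, w (J i) • z i := by
  rw [← h.span, Submodule.mem_span_range_iff_exists_fun] at hw
  obtain ⟨c, hc⟩ := hw
  have h1 : ∀ j, w (J j) = c j := by
    intro j
    rw [← hc, Finset.sum_apply, Finset.sum_eq_single j]
    · rw [Pi.smul_apply, h.id, if_pos rfl, smul_eq_mul, mul_one]
    · intro i _ hi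
      rw [Pi.smul_apply, h.id, if_neg hi, smul_zero]
    · intro hj
      exact absurd (Finset.mem_univ j) hj
  calc w = ∑ i, c i • z i := hc.symm
    _ = ∑ i, w (J i) • z i := Finset.sum_congr rfl fun i _ => by rw [h1]

/-- `fq` as a linear map -/
def fqL (J : Fin (r + 1) → Fin (n + 1)) (z : Fin (r + 1) → Fin (n + 1) → K) :
    (Fin (n + 1) → K) →ₗ[K] (Fin (n + 1) → K) where
  toFun := fq J z
  map_add' w w' := by
    funext j
    simp only [fq, Pi.add_apply, add_mul, Finset.sum_add_distrib]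
    ring
  map_smul' c w := by
    funext j
    simp only [fq, Pi.smul_apply, smul_eq_mul, RingHom.id_apply, mul_sub, Finset.mul_sum,
      mul_assoc]

theorem fqL_apply (w : Fin (n + 1) → K) : fqL J z w = fq J z w := rfl

theorem fq_eq (w : Fin (n + 1) → K) : fq J z w = w - ∑ i, w (J i) • z i := by
  funext j
  rw [Pi.sub_apply, Finset.sum_apply]
  rfl

theorem fq_mem (h : Cht L J z) {w : Fin (n + 1) → K} (hw : w ∈ L) : fqL J z w = 0 := by
  rw [fqL_apply, fq_eq, ← repr_mem h hw, sub_self]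

theorem fq_J (h : Cht L J z) (w : Fin (n + 1) → K) (j : Fin (r + 1)) : fq J z w (J j) = 0 := by
  rw [fq, Finset.sum_eq_single j]
  · rw [h.id, if_pos rfl, mul_one, sub_self]
  · intro i _ hi
    rw [h.id, if_neg hi, mul_zero]
  · intro hj
    exact absurd (Finset.mem_univ j) hj

theorem fq_fq (h : Cht L J z) (h' : Cht L J' z') (w : Fin (n + 1) → K) :
    fqL J' z' (fq J z w) = fqL J' z' w := by
  rw [fq_eq, map_sub, map_sum, Finset.sum_eq_zero fun i _ => ?_, sub_zero]
  rw [map_smul, fq_mem h' (z_mem h i), smul_zero]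

/-- Leibniz rule for combinations of the `z i` -/
theorem opV_sum (τ : Op R K n) (c : Fin (r + 1) → K) (z : Fin (r + 1) → Fin (n + 1) → K) :
    opV τ (∑ i, c i • z i) = ∑ i, τ.1 (c i) • z i + ∑ i, c i • opV τ (z i) := by
  funext j
  simp only [opV, Finset.sum_apply, Pi.smul_apply, smul_eq_mul, Pi.add_apply, map_sum,
    Derivation.leibniz]
  rw [Finset.sum_add_distrib]
  have e1 : ∑ l, τ.2 j l * ∑ i, c i * z i l = ∑ i, c i * ∑ l, τ.2 j l * z i l := by
    simp only [Finset.mul_sum]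
    rw [Finset.sum_comm]
    exact Finset.sum_congr rfl fun i _ => Finset.sum_congr rfl fun l _ => by ring
  rw [e1]
  have e2 : ∑ i, c i * (τ.1 (z i j) - ∑ l, τ.2 j l * z i l) =
      ∑ i, c i * τ.1 (z i j) - ∑ i, c i * ∑ l, τ.2 j l * z i l := by
    rw [← Finset.sum_sub_distrib]
    exact Finset.sum_congr rfl fun i _ => by ring
  rw [e2]
  have e3 : ∑ i, z i j * τ.1 (c i) = ∑ i, τ.1 (c i) * z i j :=
    Finset.sum_congr rfl fun i _ => mul_comm _ _
  rw [e3]
  ring

theorem fq_opV (h : Cht L J z) (h' : Cht L J' z') (τ : Op R K n) {w : Fin (n + 1) → K}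
    (hw : w ∈ L) : fqL J' z' (opV τ w) = ∑ i, w (J i) • fqL J' z' (opV τ (z i)) := by
  conv_lhs => rw [repr_mem h hw, opV_sum]
  rw [map_add, map_sum, map_sum, Finset.sum_eq_zero fun i _ => ?_, zero_add]
  · exact Finset.sum_congr rfl fun i _ => by rw [map_smul]
  · rw [map_smul, fq_mem h' (z_mem h i), smul_zero]

/-- sums of functions which vanish on the columns of `J` -/
theorem sum_Co (f : Fin (n + 1) → K) (hf : ∀ i, f (J i) = 0) : ∑ j, f j = ∑ a : Co J, f a.1 := by
  rw [← Fintype.sum_subtype_add_sum_subtype (fun j => ∀ i, J i ≠ j) f]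
  rw [Finset.sum_eq_zero (s := (Finset.univ : Finset {j // ¬ ∀ i, J i ≠ j})), add_zero]
  rintro ⟨j, hj⟩ _
  push Not at hj
  obtain ⟨i, rfl⟩ := hj
  exact hf i

/-- the matrix of `fq J' z'` on the coordinates of `J` -/
def Cm (J J' : Fin (r + 1) → Fin (n + 1)) (z' : Fin (r + 1) → Fin (n + 1) → K) (b : Co J')
    (a : Co J) : K := fq J' z' (Pi.single a.1 1) b.1

theorem fq_Cm (h : Cht L J z) (h' : Cht L J' z') (w : Fin (n + 1) → K) (b : Co J') :
    fq J' z' w b.1 = ∑ a : Co J, Cm J J' z' b a * fq J z w a.1 := by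
  have h1 : fq J z w = ∑ j, fq J z w j • Pi.single j (1 : K) := by
    funext l
    rw [Finset.sum_apply, Finset.sum_eq_single l]
    · rw [Pi.smul_apply, Pi.single_eq_same, smul_eq_mul, mul_one]
    · intro j _ hj
      rw [Pi.smul_apply, Pi.single_eq_of_ne (Ne.symm hj), smul_zero]
    · intro hl
      exact absurd (Finset.mem_univ l) hl
  have h2 : fq J' z' w b.1 = ∑ j, fq J z w j * fq J' z' (Pi.single j 1) b.1 := by
    rw [← fqL_apply, ← fq_fq h h', h1, map_sum, Finset.sum_apply]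
    refine Finset.sum_congr rfl fun j _ => ?_
    rw [map_smul, Pi.smul_apply, smul_eq_mul, ← h1]
    rfl
  rw [h2, sum_Co (J := J) _ fun i => by rw [fq_J h, zero_mul]]
  exact Finset.sum_congr rfl fun a _ => mul_comm _ _

/-- the matrix of the change of chart -/
def Pm (J J' : Fin (r + 1) → Fin (n + 1)) (z z' : Fin (r + 1) → Fin (n + 1) → K)
    (x : Fin (n + 1) → K) : Matrix (Row J') (Row J) K :=
  Matrix.fromBlocks (Matrix.of fun j i => z i (J' j))
    (Matrix.of fun j p => if p.2.1 = J' j then x (J p.1) else 0) 0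
    (Matrix.of fun q p => z' q.1 (J p.1) * Cm J J' z' q.2 p.2)

theorem Pm_colX (h : Cht L J z) {x : Fin (n + 1) → K} (hx : x ∈ L) :
    (Pm J J' z z' x).mulVec (colX J x) = colX J' x := by
  funext a
  rcases a with j | q
  · rw [Matrix.mulVec, dotProduct, Fintype.sum_sum_type]
    have h1 : ∀ p, Pm J J' z z' x (Sum.inl j) (Sum.inr p) * colX J x (Sum.inr p) = 0 :=
      fun p => mul_zero _
    rw [Finset.sum_eq_zero fun p _ => h1 p, add_zero]
    change ∑ i, z i (J' j) * x (J i) = x (J' j)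
    conv_rhs => rw [repr_mem h hx, Finset.sum_apply]
    exact Finset.sum_congr rfl fun i _ => mul_comm _ _
  · rw [Matrix.mulVec, dotProduct, Fintype.sum_sum_type]
    have h1 : ∀ p, Pm J J' z z' x (Sum.inr q) (Sum.inr p) * colX J x (Sum.inr p) = 0 :=
      fun p => mul_zero _
    have h2 : ∀ i, Pm J J' z z' x (Sum.inr q) (Sum.inl i) * colX J x (Sum.inl i) = 0 :=
      fun i => zero_mul _
    rw [Finset.sum_eq_zero fun p _ => h1 p, Finset.sum_eq_zero fun i _ => h2 i, add_zero]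
    rfl

theorem Pm_colF (h : Cht L J z) (h' : Cht L J' z') {x : Fin (n + 1) → K} (hx : x ∈ L)
    (τ : Op R K n) : (Pm J J' z z' x).mulVec (colF J z x τ) = colF J' z' x τ := by
  funext a
  rcases a with j | q
  · rw [Matrix.mulVec, dotProduct, Fintype.sum_sum_type]
    change ∑ i, z i (J' j) * opV τ x (J i) + ∑ p : Fin (r + 1) × Co J,
      (if p.2.1 = J' j then x (J p.1) else 0) * fq J z (opV τ (z p.1)) p.2.1 = opV τ x (J' j)
    have h1 : fq J z (opV τ x) (J' j) = ∑ i, x (J i) * fq J z (opV τ (z i)) (J' j) := by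
      have := congrFun (fq_opV h h τ hx) (J' j)
      rw [Finset.sum_apply] at this
      exact this
    have h2 : ∑ p : Fin (r + 1) × Co J,
        (if p.2.1 = J' j then x (J p.1) else 0) * fq J z (opV τ (z p.1)) p.2.1 =
        ∑ i, x (J i) * fq J z (opV τ (z i)) (J' j) := by
      rw [Fintype.sum_prod_type]
      refine Finset.sum_congr rfl fun i _ => ?_
      have h3 := sum_Co (J := J)
        (fun l => (if l = J' j then x (J i) else 0) * fq J z (opV τ (z i)) l)
        (fun i' => by rw [fq_J h, mul_zero])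
      rw [← h3, Finset.sum_eq_single (J' j)]
      · rw [if_pos rfl]
      · intro l _ hl
        rw [if_neg hl, zero_mul]
      · intro hl
        exact absurd (Finset.mem_univ _) hl
    rw [h2, ← h1, fq]
    have h3 : ∑ i, z i (J' j) * opV τ x (J i) = ∑ i, opV τ x (J i) * z i (J' j) :=
      Finset.sum_congr rfl fun i _ => mul_comm _ _
    rw [h3]
    ring
  · obtain ⟨j, b⟩ := q
    rw [Matrix.mulVec, dotProduct, Fintype.sum_sum_type]
    have h2 : ∀ i, Pm J J' z z' x (Sum.inr (j, b)) (Sum.inl i) * colF J z x τ (Sum.inl i) = 0 :=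
      fun i => zero_mul _
    rw [Finset.sum_eq_zero fun i _ => h2 i, zero_add]
    change ∑ p : Fin (r + 1) × Co J, z' j (J p.1) * Cm J J' z' b p.2 *
      fq J z (opV τ (z p.1)) p.2.1 = fq J' z' (opV τ (z' j)) b.1
    have h1 : fq J' z' (opV τ (z' j)) b.1 = ∑ i, z' j (J i) * fq J' z' (opV τ (z i)) b.1 := by
      have := congrFun (fq_opV h h' τ (z_mem h' j)) b.1
      rw [Finset.sum_apply] at this
      exact this
    rw [h1, Fintype.sum_prod_type]
    refine Finset.sum_congr rfl fun i _ => ?_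
    rw [fq_Cm h h', Finset.mul_sum]
    exact Finset.sum_congr rfl fun a _ => by ring

theorem Pm_matF (h : Cht L J z) (h' : Cht L J' z') {x : Fin (n + 1) → K} (hx : x ∈ L)
    {κ : Type} (D : Derivation R K K) (τ : κ → Op R K n) :
    matF J' z' x D τ = Pm J J' z z' x * matF J z x D τ := by
  ext a c
  rcases c with c | t
  · exact (congrFun (Pm_colF h h' hx (τ c)) a).symm
  · by_cases ht : t = 0
    · have e1 : ∀ (J₀ : Fin (r + 1) → Fin (n + 1)) (z₀ : Fin (r + 1) → Fin (n + 1) → K)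
          (b : Row J₀), matF J₀ z₀ x D τ b (Sum.inr t) = colF J₀ z₀ x (D, 0) b := by
        intro J₀ z₀ b
        exact if_pos ht
      rw [e1, Matrix.mul_apply]
      simp only [e1]
      exact (congrFun (Pm_colF h h' hx (D, 0)) a).symm
    · have e1 : ∀ (J₀ : Fin (r + 1) → Fin (n + 1)) (z₀ : Fin (r + 1) → Fin (n + 1) → K)
          (b : Row J₀), matF J₀ z₀ x D τ b (Sum.inr t) = colX J₀ x b := by
        intro J₀ z₀ b
        exact if_neg ht
      rw [e1, Matrix.mul_apply]
      simp only [e1]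
      exact (congrFun (Pm_colX h hx) a).symm

theorem J_inj (h : Cht L J z) : Function.Injective J := by
  intro i j hij
  by_contra hne
  have h1 := h.id i i
  rw [if_pos rfl, hij, h.id i j, if_neg hne] at h1
  exact zero_ne_one h1

theorem card_Co (h : Cht L J z) : Fintype.card (Co J) + (r + 1) = n + 1 := by
  have h1 : Fintype.card {j : Fin (n + 1) // ¬ ∀ i, J i ≠ j} = r + 1 := by
    have e : Fin (r + 1) ≃ {j : Fin (n + 1) // ¬ ∀ i, J i ≠ j} :=
      Equiv.ofBijective (fun i => ⟨J i, fun h => h i rfl⟩) ⟨fun a b hab => J_inj h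
        (congrArg Subtype.val hab), fun ⟨j, hj⟩ => by
          push Not at hj
          obtain ⟨i, hi⟩ := hj
          exact ⟨i, Subtype.ext hi⟩⟩
    rw [← Fintype.card_congr e, Fintype.card_fin]
  have h2 : Fintype.card (Co J) + Fintype.card {j : Fin (n + 1) // ¬ ∀ i, J i ≠ j} =
      Fintype.card (Fin (n + 1)) := by
    rw [← Fintype.card_sum]
    exact Fintype.card_congr (Equiv.sumCompl _)
  rw [h1, Fintype.card_fin] at h2
  exact h2

theorem B_inv (h : Cht L J z) (h' : Cht L J' z') :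
    (Matrix.of fun i j : Fin (r + 1) => z i (J' j)) *
      (Matrix.of fun j i : Fin (r + 1) => z' j (J i)) = 1 := by
  ext i l
  rw [Matrix.mul_apply]
  change ∑ j, z i (J' j) * z' j (J l) = _
  have h1 := congrFun (repr_mem h' (z_mem h i)) (J l)
  rw [Finset.sum_apply, h.id] at h1
  rw [Matrix.one_apply]
  exact h1.symm

theorem det_Pm (h : Cht L J z) (h' : Cht L J' z') (x : Fin (n + 1) → K) (e1 : Co J' ≃ Co J) :
    (Matrix.of fun i j : Fin (r + 1) => z i (J' j)).det ^ n *
      ((Pm J J' z z' x).submatrix id (Equiv.sumCongr (Equiv.refl (Fin (r + 1)))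
        (Equiv.prodCongr (Equiv.refl (Fin (r + 1))) e1))).det =
      ((Matrix.of fun i j : Fin (r + 1) => z i (J' j)).det *
        (Matrix.of fun (j l : Co J') => fq J' z' (Pi.single (e1 l).1 1) j.1).det) ^ (r + 1) := by
  have e2 : (Pm J J' z z' x).submatrix id (Equiv.sumCongr (Equiv.refl (Fin (r + 1)))
        (Equiv.prodCongr (Equiv.refl (Fin (r + 1))) e1)) =
      Matrix.fromBlocks (Matrix.of fun i j : Fin (r + 1) => z i (J' j)).transpose
        (Matrix.of fun j p => if (e1 p.2).1 = J' j then x (J p.1) else 0) 0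
        (Matrix.kroneckerMap (· * ·) (Matrix.of fun j i : Fin (r + 1) => z' j (J i))
          (Matrix.of fun (j l : Co J') => fq J' z' (Pi.single (e1 l).1 1) j.1)) := by
    ext a b
    rcases a with a | a <;> rcases b with b | b <;> rfl
  have hdd := congrArg Matrix.det (B_inv h h')
  rw [Matrix.det_mul, Matrix.det_one] at hdd
  have hc := card_Co h'
  have hn : n = Fintype.card (Co J') + r := by omega
  rw [e2, Matrix.det_fromBlocks_zero₂₁, Matrix.det_transpose, Matrix.det_kronecker,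
    Fintype.card_fin]
  obtain ⟨b, hb⟩ : ∃ b, b = (Matrix.of fun i j : Fin (r + 1) => z i (J' j)).det := ⟨_, rfl⟩
  obtain ⟨b', hb'⟩ : ∃ b', b' = (Matrix.of fun j i : Fin (r + 1) => z' j (J i)).det := ⟨_, rfl⟩
  obtain ⟨c, hc'⟩ : ∃ c, c = (Matrix.of fun (j l : Co J') =>
    fq J' z' (Pi.single (e1 l).1 1) j.1).det := ⟨_, rfl⟩
  obtain ⟨s, hs⟩ : ∃ s, s = Fintype.card (Co J') := ⟨_, rfl⟩
  rw [← hb, ← hb'] at hdd
  rw [← hb, ← hb', ← hc', ← hs]
  have hn' : b ^ n = b ^ s * b ^ r := by rw [hn, ← hs, pow_add]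
  have h3 : b ^ s * b' ^ s = 1 := by rw [← mul_pow, hdd, one_pow]
  rw [hn', mul_pow]
  linear_combination (b ^ r * b * c ^ (r + 1)) * h3

theorem pf_ICC (hICD : T_ICD) : T_ICC := by
  intro R K _ _ _ n r L J J' z z' h h' x hx κ _ _ e0 e0'
  have hc : Fintype.card (Co J') = Fintype.card (Co J) := by
    have h1 := card_Co h
    have h2 := card_Co h'
    omega
  obtain ⟨e1⟩ : Nonempty (Co J' ≃ Co J) := ⟨Fintype.equivOfCardEq hc⟩
  obtain ⟨ε1, hε1, hdet⟩ := hICD K n r L J J' z z' h h' e1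
  have hd := det_Pm h h' x e1
  rw [hdet] at hd
  obtain ⟨E, hE⟩ : ∃ E : Row J' ≃ Row J, E = Equiv.sumCongr (Equiv.refl (Fin (r + 1)))
    (Equiv.prodCongr (Equiv.refl (Fin (r + 1))) e1) := ⟨_, rfl⟩
  rw [← hE] at hd
  obtain ⟨Q, hQ⟩ : ∃ Q, Q = (Pm J J' z z' x).submatrix id E := ⟨_, rfl⟩
  rw [← hQ] at hd
  -- the determinant of the reindexed matrix
  obtain ⟨σ, hσ⟩ : ∃ σ : Equiv.Perm (κ ⊕ Fin 2), σ = (e0.trans E.symm).trans e0'.symm := ⟨_, rfl⟩
  have e3 : (Pm J J' z z' x).submatrix e0' e0 = (Q.submatrix e0' e0').submatrix id σ := by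
    ext a b
    rw [hQ, hσ]
    simp only [Matrix.submatrix_apply, id_eq, Equiv.trans_apply, Equiv.apply_symm_apply]
  have e4 : ((Pm J J' z z' x).submatrix e0' e0).det = ((Equiv.Perm.sign σ : ℤˣ) : K) * Q.det := by
    rw [e3, Matrix.det_permute', Matrix.det_submatrix_equiv_self]
  have hsign : (((Equiv.Perm.sign σ : ℤˣ) : ℤ) : K) * (((Equiv.Perm.sign σ : ℤˣ) : ℤ) : K) = 1 := by
    rcases Int.units_eq_one_or (Equiv.Perm.sign σ) with h1 | h1 <;> rw [h1] <;> simp
  refine ⟨ε1 ^ (r + 1) * (((Equiv.Perm.sign σ : ℤˣ) : ℤ) : K), ?_, fun D τ => ?_⟩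
  · rw [mul_pow, ← pow_mul, Nat.mul_comm, pow_mul, hε1, one_pow, one_mul, pow_two, hsign]
  have e5 : (matF J' z' x D τ).submatrix e0' id =
      (Pm J J' z z' x).submatrix e0' e0 * (matF J z x D τ).submatrix e0 id := by
    rw [Pm_matF h h' hx D τ, Matrix.submatrix_mul_equiv]
  rw [e5, Matrix.det_mul, e4]
  have hε2 : ε1 ^ (r + 1) * ε1 ^ (r + 1) = 1 := by
    rw [← mul_pow, ← pow_two, hε1, one_pow]
  obtain ⟨s, hs⟩ : ∃ s : K, s = (((Equiv.Perm.sign σ : ℤˣ) : ℤ) : K) := ⟨_, rfl⟩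
  obtain ⟨d, hd'⟩ : ∃ d : K, d = ((matF J z x D τ).submatrix e0 id).det := ⟨_, rfl⟩
  obtain ⟨b, hb⟩ : ∃ b : K, b = (Matrix.of fun i j : Fin (r + 1) => z i (J' j)).det := ⟨_, rfl⟩
  rw [← hb] at hd
  rw [← hs] at hsign
  rw [← hs, ← hd', ← hb]
  have e6 : ε1 ^ (r + 1) * s * b ^ n * (s * Q.det * d) = d := by
    calc ε1 ^ (r + 1) * s * b ^ n * (s * Q.det * d) =
        ε1 ^ (r + 1) * (s * s) * (b ^ n * Q.det) * d := by ring
      _ = d := by rw [hsign, hd, mul_one, hε2, one_mul]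
  exact e6.symm

end Pool.Agent.H63.EE
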