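import Pool.Agent.H63.EE.LNEa

/-!
# LNE: a constant line without common zeros of two relatively prime ternary forms
-/

set_option autoImplicit false

open MvPolynomial

namespace Pool.Agent.H63.EE

open SC Pool.Agent.H27.LV Pool.Agent.H17.VG Pool.Agent.H30.EE

variable {K : Type} [Field K]

theorem finite_Sd (n d : ℕ) : Module.Finite K (Sd K n d) :=
  Module.Finite.iff_fg.2 (homogeneousSubmodule_fg (Fin (n + 1)) K d)

/-- multiplication by a linear form sends forms to forms -/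
theorem mulW_le {n a b : ℕ} {G : MvPolynomial (Fin (n + 1)) K} (hG : G.IsHomogeneous a)
    {W : Submodule K (MvPolynomial (Fin (n + 1)) K)} (hW : W ≤ Sd K n b) :
    mulW G W ≤ Sd K n (a + b) := by
  rintro _ ⟨H, hH, rfl⟩
  have h1 : H.IsHomogeneous b := hW hH
  exact hG.mul h1

theorem mem_mulW {n : ℕ} {G H : MvPolynomial (Fin (n + 1)) K}
    {W : Submodule K (MvPolynomial (Fin (n + 1)) K)} (hH : H ∈ W) : G * H ∈ mulW G W :=
  ⟨H, hH, rfl⟩

/-- `X i * H` for forms `H` of degree `N` span the forms of degree `N + 1` -/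
theorem Sd_succ_le {n N : ℕ} (W : Submodule K (MvPolynomial (Fin (n + 1)) K))
    (h : ∀ i, ∀ H ∈ Sd K n N, X i * H ∈ W) : Sd K n (N + 1) ≤ W := by
  intro H hH
  have hH' : H.IsHomogeneous (N + 1) := hH
  rw [H.as_sum]
  refine Submodule.sum_mem _ fun m hm => ?_
  have hdeg : m.degree = N + 1 := by
    by_contra hne
    exact mem_support_iff.1 hm (hH'.coeff_eq_zero hne)
  have hne : ∃ i, m i ≠ 0 := by
    by_contra hcon
    push Not at hcon
    rw [Finsupp.degree_eq_sum, Finset.sum_eq_zero fun i _ => hcon i] at hdeg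
    omega
  obtain ⟨i, hi⟩ := hne
  have h1 : m = Finsupp.single i 1 + (m - Finsupp.single i 1) := by
    rw [add_tsub_cancel_of_le]
    rw [Finsupp.single_le_iff]
    omega
  have h2 : (m - Finsupp.single i 1).degree = N := by
    have h3 := congrArg Finsupp.degree h1
    rw [map_add, hdeg, Finsupp.degree_single] at h3
    omega
  have h4 : (monomial m (coeff m H) : MvPolynomial (Fin (n + 1)) K) =
      X i * monomial (m - Finsupp.single i 1) (coeff m H) := by
    rw [X, monomial_mul, one_mul, ← h1]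
  rw [h4]
  exact h i _ (isHomogeneous_monomial _ h2)

section Line

variable (p1 p2 b1 b2 u1 u2 : K)

/-- `T_1 - p1 T_0` -/
noncomputable def m1 : MvPolynomial (Fin 3) K := X 1 - C p1 * X 0

/-- `T_2 - p2 T_0` -/
noncomputable def m2 : MvPolynomial (Fin 3) K := X 2 - C p2 * X 0

/-- the linear form with value `1` -/
noncomputable def mm : MvPolynomial (Fin 3) K := C u1 * m1 p1 + C u2 * m2 p2

/-- the equation of the line -/
noncomputable def ll : MvPolynomial (Fin 3) K := C b2 * m1 p1 - C b1 * m2 p2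

theorem hom_m1 : (m1 p1).IsHomogeneous 1 := by
  have h := (isHomogeneous_C (Fin 3) p1).mul (isHomogeneous_X K (0 : Fin 3))
  rw [Nat.zero_add] at h
  exact (isHomogeneous_X K 1).sub h

theorem hom_m2 : (m2 p2).IsHomogeneous 1 := by
  have h := (isHomogeneous_C (Fin 3) p2).mul (isHomogeneous_X K (0 : Fin 3))
  rw [Nat.zero_add] at h
  exact (isHomogeneous_X K 2).sub h

theorem hom_mm : (mm p1 p2 u1 u2).IsHomogeneous 1 := by
  have h1 := (isHomogeneous_C (Fin 3) u1).mul (hom_m1 p1)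
  have h2 := (isHomogeneous_C (Fin 3) u2).mul (hom_m2 p2)
  rw [Nat.zero_add] at h1 h2
  exact h1.add h2

theorem hom_ll : (ll p1 p2 b1 b2).IsHomogeneous 1 := by
  have h1 := (isHomogeneous_C (Fin 3) b2).mul (hom_m1 p1)
  have h2 := (isHomogeneous_C (Fin 3) b1).mul (hom_m2 p2)
  rw [Nat.zero_add] at h1 h2
  exact h1.sub h2

/-- the restriction to the line -/
noncomputable def ph : MvPolynomial (Fin 3) K →ₐ[K] Polynomial K :=
  phi ![1, p1, p2] ![0, b1, b2]

theorem ph_X0 : ph p1 p2 b1 b2 (X 0) = Polynomial.X := by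
  simp [ph, phi]

theorem ph_m1 : ph p1 p2 b1 b2 (m1 p1) = Polynomial.C b1 := by
  simp only [ph, phi, m1, map_sub, map_mul, aeval_X, algHom_C]
  simp [Polynomial.algebraMap_eq]

theorem ph_m2 : ph p1 p2 b1 b2 (m2 p2) = Polynomial.C b2 := by
  simp only [ph, phi, m2, map_sub, map_mul, aeval_X, algHom_C]
  simp [Polynomial.algebraMap_eq]

theorem ph_C (c : K) : ph p1 p2 b1 b2 (C c) = Polynomial.C c := by
  rw [ph, algHom_C]; rfl

theorem ph_ll : ph p1 p2 b1 b2 (ll p1 p2 b1 b2) = 0 := by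
  rw [ll, map_sub, map_mul, map_mul, ph_m1, ph_m2, ph_C, ph_C]
  ring

theorem ph_mm (h : u1 * b1 + u2 * b2 = 1) : ph p1 p2 b1 b2 (mm p1 p2 u1 u2) = 1 := by
  rw [mm, map_add, map_mul, map_mul, ph_m1, ph_m2, ph_C, ph_C, ← map_mul, ← map_mul, ← map_add,
    h, map_one]

/-- products of `X 0` and `mm` -/
noncomputable def TT (N : ℕ) : Submodule K (MvPolynomial (Fin 3) K) :=
  Submodule.span K {G | ∃ i j : ℕ, i + j = N ∧ G = X 0 ^ i * mm p1 p2 u1 u2 ^ j}

/-- multiples of `ll` -/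
noncomputable def LP : ℕ → Submodule K (MvPolynomial (Fin 3) K)
  | 0 => ⊥
  | M + 1 => mulW (n := 2) (ll p1 p2 b1 b2) (Sd K 2 M)

theorem TT_le (N : ℕ) : TT p1 p2 u1 u2 N ≤ Sd K 2 N := by
  rw [TT, Submodule.span_le]
  rintro _ ⟨i, j, hij, rfl⟩
  have h1 := ((isHomogeneous_X K (0 : Fin 3)).pow i).mul ((hom_mm p1 p2 u1 u2).pow j)
  rw [Nat.one_mul, Nat.one_mul, hij] at h1
  exact h1

theorem X0_mul_TT {N : ℕ} {t : MvPolynomial (Fin 3) K} (ht : t ∈ TT p1 p2 u1 u2 N) :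
    X 0 * t ∈ TT p1 p2 u1 u2 (N + 1) := by
  have h : (TT p1 p2 u1 u2 N).map (LinearMap.mulLeft K (X 0)) ≤ TT p1 p2 u1 u2 (N + 1) := by
    rw [TT, Submodule.map_span, Submodule.span_le]
    rintro _ ⟨_, ⟨i, j, hij, rfl⟩, rfl⟩
    refine Submodule.subset_span ⟨i + 1, j, by omega, ?_⟩
    rw [LinearMap.mulLeft_apply]
    ring
  exact h ⟨t, ht, rfl⟩

theorem mm_mul_TT {N : ℕ} {t : MvPolynomial (Fin 3) K} (ht : t ∈ TT p1 p2 u1 u2 N) :
    mm p1 p2 u1 u2 * t ∈ TT p1 p2 u1 u2 (N + 1) := by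
  have h : (TT p1 p2 u1 u2 N).map (LinearMap.mulLeft K (mm p1 p2 u1 u2)) ≤
      TT p1 p2 u1 u2 (N + 1) := by
    rw [TT, Submodule.map_span, Submodule.span_le]
    rintro _ ⟨_, ⟨i, j, hij, rfl⟩, rfl⟩
    refine Submodule.subset_span ⟨i, j + 1, by omega, ?_⟩
    rw [LinearMap.mulLeft_apply]
    ring
  exact h ⟨t, ht, rfl⟩

theorem X_eq (h : u1 * b1 + u2 * b2 = 1) (i : Fin 3) : ∃ c0 c1 c2 : K,
    (X i : MvPolynomial (Fin 3) K) =
      C c0 * X 0 + C c1 * mm p1 p2 u1 u2 + C c2 * ll p1 p2 b1 b2 := by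
  have hC : (C u1 * C b1 + C u2 * C b2 : MvPolynomial (Fin 3) K) = 1 := by
    rw [← C_mul, ← C_mul, ← C_add, h, C_1]
  have e1 : m1 p1 = C b1 * mm p1 p2 u1 u2 + C u2 * ll p1 p2 b1 b2 := by
    rw [mm, ll]
    linear_combination (-(m1 p1)) * hC
  have e2 : m2 p2 = C b2 * mm p1 p2 u1 u2 - C u1 * ll p1 p2 b1 b2 := by
    rw [mm, ll]
    linear_combination (-(m2 p2)) * hC
  fin_cases i
  · exact ⟨1, 0, 0, by simp⟩
  · refine ⟨p1, b1, u2, ?_⟩
    have : (X 1 : MvPolynomial (Fin 3) K) = m1 p1 + C p1 * X 0 := by rw [m1]; ring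
    change (X 1 : MvPolynomial (Fin 3) K) = _
    rw [this, e1]
    ring
  · refine ⟨p2, b2, -u1, ?_⟩
    have : (X 2 : MvPolynomial (Fin 3) K) = m2 p2 + C p2 * X 0 := by rw [m2]; ring
    change (X 2 : MvPolynomial (Fin 3) K) = _
    rw [this, e2, C_neg]
    ring

theorem decomp (h : u1 * b1 + u2 * b2 = 1) (N : ℕ) :
    Sd K 2 N ≤ LP p1 p2 b1 b2 N ⊔ TT p1 p2 u1 u2 N := by
  induction N with
  | zero =>
    intro H hH
    have hH' : H.IsHomogeneous 0 := hH
    have h1 : H = C (coeff 0 H) := by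
      rw [← totalDegree_eq_zero_iff_eq_C]
      have := hH'.totalDegree_le
      omega
    refine Submodule.mem_sup_right ?_
    rw [h1, C_eq_smul_one]
    refine Submodule.smul_mem _ _ (Submodule.subset_span ⟨0, 0, rfl, ?_⟩)
    simp
  | succ N ih =>
    refine Sd_succ_le (n := 2) _ ?_
    intro i H hH
    obtain ⟨h1, hh1, t, ht, rfl⟩ := Submodule.mem_sup.1 (ih hH)
    rw [mul_add]
    refine Submodule.add_mem _ (Submodule.mem_sup_left ?_) ?_
    · cases N with
      | zero =>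
        have : h1 = 0 := hh1
        rw [this, mul_zero]
        exact Submodule.zero_mem _
      | succ M =>
        obtain ⟨H1, hH1, rfl⟩ := hh1
        have hH1' : H1.IsHomogeneous M := hH1
        refine ⟨X i * H1, ?_, ?_⟩
        · have := (isHomogeneous_X K i).mul hH1'
          rw [Nat.add_comm 1 M] at this
          exact this
        · rw [LinearMap.mulLeft_apply, LinearMap.mulLeft_apply]
          ring
    · obtain ⟨c0, c1, c2, hX⟩ := X_eq p1 p2 b1 b2 u1 u2 h i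
      have e : X i * t = c0 • (X 0 * t) + c1 • (mm p1 p2 u1 u2 * t) +
          c2 • (ll p1 p2 b1 b2 * t) := by
        rw [hX, smul_eq_C_mul, smul_eq_C_mul, smul_eq_C_mul]
        ring
      rw [e]
      refine Submodule.add_mem _ (Submodule.add_mem _ ?_ ?_) ?_
      · exact Submodule.mem_sup_right (Submodule.smul_mem _ _ (X0_mul_TT p1 p2 u1 u2 ht))
      · exact Submodule.mem_sup_right (Submodule.smul_mem _ _ (mm_mul_TT p1 p2 u1 u2 ht))
      · exact Submodule.mem_sup_left (Submodule.smul_mem _ _ (mem_mulW (TT_le p1 p2 u1 u2 N ht)))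

/-- the lift of a polynomial of degree `≤ N` -/
noncomputable def ps (N : ℕ) : Polynomial K →ₗ[K] MvPolynomial (Fin 3) K where
  toFun p := ∑ i ∈ Finset.range (N + 1), C (p.coeff i) * (X 0 ^ i * mm p1 p2 u1 u2 ^ (N - i))
  map_add' p q := by
    rw [← Finset.sum_add_distrib]
    refine Finset.sum_congr rfl fun i _ => ?_
    rw [Polynomial.coeff_add, C_add]
    ring
  map_smul' c p := by
    rw [Finset.smul_sum]
    refine Finset.sum_congr rfl fun i _ => ?_
    rw [Polynomial.coeff_smul, smul_eq_mul, C_mul, RingHom.id_apply, smul_eq_C_mul]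
    ring

theorem ps_apply (N : ℕ) (p : Polynomial K) : ps p1 p2 u1 u2 N p =
    ∑ i ∈ Finset.range (N + 1), C (p.coeff i) * (X 0 ^ i * mm p1 p2 u1 u2 ^ (N - i)) := rfl

theorem ps_mem (N : ℕ) (p : Polynomial K) : ps p1 p2 u1 u2 N p ∈ Sd K 2 N := by
  rw [ps_apply]
  refine Submodule.sum_mem _ fun i hi => ?_
  rw [← smul_eq_C_mul]
  refine Submodule.smul_mem _ _ (TT_le p1 p2 u1 u2 N (Submodule.subset_span ⟨i, N - i, ?_, rfl⟩))
  rw [Finset.mem_range] at hi
  omega

theorem ph_ps (h : u1 * b1 + u2 * b2 = 1) (N : ℕ) (p : Polynomial K) (hp : p.natDegree ≤ N) :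
    ph p1 p2 b1 b2 (ps p1 p2 u1 u2 N p) = p := by
  rw [ps_apply, map_sum]
  conv_rhs => rw [p.as_sum_range' (N + 1) (by omega)]
  refine Finset.sum_congr rfl fun i _ => ?_
  rw [map_mul, map_mul, map_pow, map_pow, ph_X0, ph_mm p1 p2 b1 b2 u1 u2 h, one_pow, mul_one,
    ph_C, Polynomial.C_mul_X_pow_eq_monomial]

theorem ps_ph (h : u1 * b1 + u2 * b2 = 1) (N : ℕ) {t : MvPolynomial (Fin 3) K}
    (ht : t ∈ TT p1 p2 u1 u2 N) : ps p1 p2 u1 u2 N (ph p1 p2 b1 b2 t) = t := by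
  have h1 : TT p1 p2 u1 u2 N ≤ LinearMap.eqLocus
      ((ps p1 p2 u1 u2 N).comp (ph p1 p2 b1 b2).toLinearMap) LinearMap.id := by
    rw [TT, Submodule.span_le]
    rintro _ ⟨i, j, hij, rfl⟩
    change ps p1 p2 u1 u2 N (ph p1 p2 b1 b2 (X 0 ^ i * mm p1 p2 u1 u2 ^ j)) =
      X 0 ^ i * mm p1 p2 u1 u2 ^ j
    rw [map_mul, map_pow, map_pow, ph_X0, ph_mm p1 p2 b1 b2 u1 u2 h, one_pow, mul_one, ps_apply,
      Finset.sum_eq_single i]
    · rw [Polynomial.coeff_X_pow_self, C_1, one_mul]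
      have : N - i = j := by omega
      rw [this]
    · intro l _ hl
      rw [Polynomial.coeff_X_pow, if_neg hl, C_0, zero_mul]
    · intro hi
      exact absurd (Finset.mem_range.2 (by omega)) hi
  exact h1 ht

/-- the conclusion from the coprimality of the restrictions -/
theorem line_core (h : u1 * b1 + u2 * b2 = 1) {a : ℕ} (ha : 1 ≤ a)
    {G G' : MvPolynomial (Fin 3) K} (hG : G.IsHomogeneous a) (hG' : G'.IsHomogeneous a)
    (hne : eval ![1, p1, p2] G ≠ 0)
    (hco : IsCoprime (ph p1 p2 b1 b2 G) (ph p1 p2 b1 b2 G')) :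
    mulW (n := 2) G (Sd K 2 (a - 1)) ⊔ mulW (n := 2) G' (Sd K 2 (a - 1)) ⊔
      mulW (n := 2) (ll p1 p2 b1 b2) (Sd K 2 (2 * a - 2)) = Sd K 2 (2 * a - 1) := by
  have ea : a + (a - 1) = 2 * a - 1 := by omega
  have eb : 1 + (2 * a - 2) = 2 * a - 1 := by omega
  apply le_antisymm
  · refine sup_le (sup_le ?_ ?_) ?_
    · rw [← ea]; exact mulW_le hG le_rfl
    · rw [← ea]; exact mulW_le hG' le_rfl
    · rw [← eb]; exact mulW_le (hom_ll p1 p2 b1 b2) le_rfl
  intro H hH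
  have hH' : H.IsHomogeneous (2 * a - 1) := hH
  have dd : ∀ {b : ℕ} {L : MvPolynomial (Fin 3) K}, L.IsHomogeneous b →
      (ph p1 p2 b1 b2 L).natDegree ≤ b ∧ (ph p1 p2 b1 b2 L).coeff b = eval ![1, p1, p2] L :=
    fun hL => phi_deg ![1, p1, p2] ![0, b1, b2] hL
  have d1 : (ph p1 p2 b1 b2 G).natDegree = a := by
    apply le_antisymm (dd hG).1
    apply Polynomial.le_natDegree_of_ne_zero
    rw [(dd hG).2]
    exact hne
  obtain ⟨A, B, hA, hB, hAB⟩ := small_bezout d1 (dd hG').1 ha hco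
    (h := ph p1 p2 b1 b2 H) (lt_of_le_of_lt (dd hH').1 (by omega))
  obtain ⟨A', hA'⟩ : ∃ A', A' = ps p1 p2 u1 u2 (a - 1) A := ⟨_, rfl⟩
  obtain ⟨B', hB'⟩ : ∃ B', B' = ps p1 p2 u1 u2 (a - 1) B := ⟨_, rfl⟩
  have mA : A' ∈ Sd K 2 (a - 1) := hA' ▸ ps_mem p1 p2 u1 u2 _ _
  have mB : B' ∈ Sd K 2 (a - 1) := hB' ▸ ps_mem p1 p2 u1 u2 _ _
  have hmem : H - G * A' - G' * B' ∈ Sd K 2 (2 * a - 1) := by
    refine Submodule.sub_mem _ (Submodule.sub_mem _ hH ?_) ?_
    · rw [← ea]; exact mulW_le hG le_rfl (mem_mulW mA)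
    · rw [← ea]; exact mulW_le hG' le_rfl (mem_mulW mB)
  have hd := decomp p1 p2 b1 b2 u1 u2 h (2 * a - 1) hmem
  have e2 : 2 * a - 1 = (2 * a - 2) + 1 := by omega
  rw [e2] at hd
  obtain ⟨s, hs, t, ht, hst⟩ := Submodule.mem_sup.1 hd
  have hs' : s ∈ mulW (n := 2) (ll p1 p2 b1 b2) (Sd K 2 (2 * a - 2)) := hs
  have ps0 : ph p1 p2 b1 b2 s = 0 := by
    obtain ⟨s1, _, rfl⟩ := hs'
    rw [LinearMap.mulLeft_apply, map_mul, ph_ll, zero_mul]
  have pt0 : ph p1 p2 b1 b2 t = 0 := by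
    have e3 := congrArg (ph p1 p2 b1 b2) hst
    rw [map_add, ps0, zero_add, map_sub, map_sub, map_mul, map_mul, hA', hB',
      ph_ps p1 p2 b1 b2 u1 u2 h _ A (by omega), ph_ps p1 p2 b1 b2 u1 u2 h _ B (by omega)] at e3
    rw [e3, ← hAB]
    ring
  have t0 : t = 0 := by
    rw [← ps_ph p1 p2 b1 b2 u1 u2 h _ ht, pt0, map_zero]
  have e4 : H = G * A' + G' * B' + s := by
    rw [t0, add_zero] at hst
    rw [hst]
    ring
  rw [e4]
  exact Submodule.add_mem _ (Submodule.mem_sup_left (Submodule.add_mem _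
    (Submodule.mem_sup_left (mem_mulW mA)) (Submodule.mem_sup_right (mem_mulW mB))))
    (Submodule.mem_sup_right hs')

/-- products of `m1` and `m2` -/
noncomputable def vv (N : ℕ) (i : Fin (N + 1)) : MvPolynomial (Fin 3) K :=
  m1 p1 ^ (i : ℕ) * m2 p2 ^ (N - i)

theorem vv_indep (N : ℕ) : LinearIndependent K (vv p1 p2 N) := by
  rw [Fintype.linearIndependent_iff]
  intro c hc i
  have h1 := congrArg (aeval (R := K) ![(0 : Polynomial K), Polynomial.X, 1]) hc
  rw [map_sum, map_zero] at h1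
  have h2 : ∀ j : Fin (N + 1), aeval (R := K) ![(0 : Polynomial K), Polynomial.X, 1]
      (c j • vv p1 p2 N j) = Polynomial.C (c j) * Polynomial.X ^ (j : ℕ) := by
    intro j
    have e1 : aeval (R := K) ![(0 : Polynomial K), Polynomial.X, 1] (m1 p1) = Polynomial.X := by
      simp [m1]
    have e2 : aeval (R := K) ![(0 : Polynomial K), Polynomial.X, 1] (m2 p2) = 1 := by
      simp [m2]
    rw [map_smul, vv, map_mul, map_pow, map_pow, e1, e2, one_pow, mul_one,
      Polynomial.smul_eq_C_mul]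
  rw [Finset.sum_congr rfl fun j _ => h2 j] at h1
  have h3 := congrArg (fun q : Polynomial K => q.coeff (i : ℕ)) h1
  simp only [Polynomial.finsetSum_coeff, Polynomial.coeff_zero] at h3
  rw [Finset.sum_eq_single i] at h3
  · simpa using h3
  · intro j _ hj
    rw [Polynomial.coeff_C_mul, Polynomial.coeff_X_pow, if_neg, mul_zero]
    intro h4
    exact hj (Fin.ext h4.symm)
  · intro h4
    exact absurd (Finset.mem_univ i) h4

theorem vv_mem (N : ℕ) (i : Fin (N + 1)) : vv p1 p2 N i ∈ Sd K 2 N := by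
  have h1 := ((hom_m1 p1).pow (i : ℕ)).mul ((hom_m2 p2).pow (N - i))
  rw [Nat.one_mul, Nat.one_mul] at h1
  have h2 : (i : ℕ) + (N - i) = N := by
    have := i.2
    omega
  rw [h2] at h1
  exact h1

/-- a form in `m1`, `m2` only which lies in the ideal -/
theorem exists_R (hKOS : T_KOS) {a : ℕ} {G G' : MvPolynomial (Fin 3) K}
    (hG : G.IsHomogeneous a) (hG' : G'.IsHomogeneous a) (h0 : G ≠ 0) (h0' : G' ≠ 0)
    (hrel : IsRelPrime G G') : ∃ (A B R : MvPolynomial (Fin 3) K),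
      R ≠ 0 ∧ R = G * A + G' * B ∧ R ∈ Submodule.span K (Set.range (vv p1 p2 (a ^ 2 + a))) := by
  have hk := hKOS K a (a ^ 2) G G' hG hG' h0 h0' hrel (by nlinarith)
  obtain ⟨W, hW⟩ : ∃ W, W = mulW (n := 2) G (Sd K 2 (a ^ 2)) ⊔ mulW (n := 2) G' (Sd K 2 (a ^ 2)) :=
    ⟨_, rfl⟩
  obtain ⟨V, hV⟩ : ∃ V, V = Submodule.span K (Set.range (vv p1 p2 (a ^ 2 + a))) := ⟨_, rfl⟩
  rw [← hW] at hk
  have := finite_Sd (K := K) 2 (a ^ 2 + a)
  have hWle : W ≤ Sd K 2 (a ^ 2 + a) := by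
    rw [hW, Nat.add_comm (a ^ 2) a]
    exact sup_le (mulW_le hG le_rfl) (mulW_le hG' le_rfl)
  have hVle : V ≤ Sd K 2 (a ^ 2 + a) := by
    rw [hV, Submodule.span_le]
    rintro _ ⟨i, rfl⟩
    exact vv_mem p1 p2 _ i
  have fW : Module.Finite K W := Submodule.finiteDimensional_of_le hWle
  have fV : Module.Finite K V := Submodule.finiteDimensional_of_le hVle
  have dV : Module.finrank K V = a ^ 2 + a + 1 := by
    rw [hV, finrank_span_eq_card (vv_indep p1 p2 _), Fintype.card_fin]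
  have e1 := Submodule.finrank_sup_add_finrank_inf_eq W V
  have e2 : Module.finrank K ↥(W ⊔ V) ≤ Module.finrank K (Sd K 2 (a ^ 2 + a)) :=
    Submodule.finrank_mono (sup_le hWle hVle)
  have e3 : W ⊓ V ≠ ⊥ := by
    intro h
    rw [h, finrank_bot] at e1
    have hk' : Module.finrank K W + a ^ 2 = Module.finrank K (Sd K 2 (a ^ 2 + a)) := hk
    rw [dV] at e1
    have e4 : Module.finrank K ↥(W ⊔ V) + 0 = Module.finrank K W + (a ^ 2 + a + 1) := e1
    linarith
  obtain ⟨R, hR, hR0⟩ := Submodule.exists_mem_ne_zero_of_ne_bot e3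
  have hRW : R ∈ W := hR.1
  have hRV : R ∈ V := hR.2
  rw [hW] at hRW
  obtain ⟨_, ⟨A, _, rfl⟩, _, ⟨B, _, rfl⟩, hAB⟩ := Submodule.mem_sup.1 hRW
  refine ⟨A, B, R, hR0, ?_, hV ▸ hRV⟩
  rw [← hAB, LinearMap.mulLeft_apply, LinearMap.mulLeft_apply]

end Line

/-- homogeneity and evaluation -/
theorem eval_smul_hom {a : ℕ} {G : MvPolynomial (Fin 3) K} (hG : G.IsHomogeneous a)
    (c : K) (x : Fin 3 → K) : eval (fun i => c * x i) G = c ^ a * eval x G := by
  have hs : ∀ m ∈ G.support, m.degree = a := by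
    intro m hm
    by_contra hne
    exact mem_support_iff.1 hm (hG.coeff_eq_zero hne)
  rw [eval_eq', eval_eq', Finset.mul_sum]
  refine Finset.sum_congr rfl fun m hm => ?_
  have h1 : a = m 0 + m 1 + m 2 := by
    rw [← hs m hm, Finsupp.degree_eq_sum, Fin.sum_univ_three]
  rw [Fin.prod_univ_three, Fin.prod_univ_three, h1]
  ring

theorem pf_LNE (hKOS : T_KOS) : T_LNE := by
  intro k K _ _ _ _ a G G' ha hG hG' h0 h0' hrel
  -- the point `(1, p1, p2)`
  obtain ⟨x, hx⟩ := exists_eval_ne (k := k) (mul_ne_zero h0 (X_ne_zero (R := K) (0 : Fin 3)))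
  rw [map_mul, eval_X] at hx
  have hx0 : algebraMap k K (x 0) ≠ 0 := right_ne_zero_of_mul hx
  have hxG := left_ne_zero_of_mul hx
  have hx0' : x 0 ≠ 0 := by
    intro h
    rw [h, map_zero] at hx0
    exact hx0 rfl
  obtain ⟨p1, hp1⟩ : ∃ p1, p1 = x 1 / x 0 := ⟨_, rfl⟩
  obtain ⟨p2, hp2⟩ : ∃ p2, p2 = x 2 / x 0 := ⟨_, rfl⟩
  have hpt : (fun i => (algebraMap k K (x 0)) * ![(1 : K), algebraMap k K p1, algebraMap k K p2] i) =
      fun i => algebraMap k K (x i) := by
    funext i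
    fin_cases i
    · simp
    · change algebraMap k K (x 0) * algebraMap k K p1 = algebraMap k K (x 1)
      rw [← map_mul, hp1, mul_div_cancel₀ _ hx0']
    · change algebraMap k K (x 0) * algebraMap k K p2 = algebraMap k K (x 2)
      rw [← map_mul, hp2, mul_div_cancel₀ _ hx0']
  have hne : eval ![(1 : K), algebraMap k K p1, algebraMap k K p2] G ≠ 0 := by
    intro h
    rw [← hpt, eval_smul_hom hG, h, mul_zero] at hxG
    exact hxG rfl
  -- the form `R`
  obtain ⟨A, B, R, hR0, hR, hRV⟩ := exists_R (algebraMap k K p1) (algebraMap k K p2) hKOS hG hG'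
    h0 h0' hrel
  obtain ⟨y, hy⟩ := exists_eval_ne (k := k) hR0
  obtain ⟨b1, hb1⟩ : ∃ b1, b1 = y 1 - p1 * y 0 := ⟨_, rfl⟩
  obtain ⟨b2, hb2⟩ : ∃ b2, b2 = y 2 - p2 * y 0 := ⟨_, rfl⟩
  have ev1 : eval (fun i => algebraMap k K (y i)) (m1 (algebraMap k K p1)) = algebraMap k K b1 := by
    rw [m1, map_sub, map_mul, eval_X, eval_X, eval_C, hb1, map_sub, map_mul]
  have ev2 : eval (fun i => algebraMap k K (y i)) (m2 (algebraMap k K p2)) = algebraMap k K b2 := by
    rw [m2, map_sub, map_mul, eval_X, eval_X, eval_C, hb2, map_sub, map_mul]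
  -- the restriction of `R` is a constant
  have hphR : ph (algebraMap k K p1) (algebraMap k K p2) (algebraMap k K b1) (algebraMap k K b2) R =
      Polynomial.C (eval (fun i => algebraMap k K (y i)) R) := by
    have h1 : Submodule.span K (Set.range (vv (algebraMap k K p1) (algebraMap k K p2)
        (a ^ 2 + a))) ≤ LinearMap.eqLocus (ph (algebraMap k K p1) (algebraMap k K p2)
          (algebraMap k K b1) (algebraMap k K b2)).toLinearMap
          ((Algebra.linearMap K (Polynomial K)).comp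
            (aeval (R := K) fun i => algebraMap k K (y i)).toLinearMap) := by
      rw [Submodule.span_le]
      rintro _ ⟨i, rfl⟩
      change ph (algebraMap k K p1) (algebraMap k K p2) (algebraMap k K b1) (algebraMap k K b2)
        (vv (algebraMap k K p1) (algebraMap k K p2) (a ^ 2 + a) i) =
        Polynomial.C (eval (fun i => algebraMap k K (y i))
          (vv (algebraMap k K p1) (algebraMap k K p2) (a ^ 2 + a) i))
      rw [vv, map_mul, map_pow, map_pow, ph_m1, ph_m2, map_mul, map_pow, map_pow, ev1, ev2]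
      simp
    exact h1 hRV
  have hb : ¬ (b1 = 0 ∧ b2 = 0) := by
    rintro ⟨h1, h2⟩
    apply hy
    have h3 : Submodule.span K (Set.range (vv (algebraMap k K p1) (algebraMap k K p2)
        (a ^ 2 + a))) ≤ LinearMap.ker (aeval (R := K) fun i => algebraMap k K (y i)).toLinearMap := by
      rw [Submodule.span_le]
      rintro _ ⟨i, rfl⟩
      change eval (fun i => algebraMap k K (y i))
          (vv (algebraMap k K p1) (algebraMap k K p2) (a ^ 2 + a) i) = 0
      rw [vv, map_mul, map_pow, map_pow, ev1, ev2, h1, h2, map_zero, ← pow_add]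
      refine zero_pow ?_
      have := i.2
      have h5 : 1 ≤ a ^ 2 := Nat.one_le_pow _ _ ha
      omega
    exact h3 hRV
  -- `u1 b1 + u2 b2 = 1`
  obtain ⟨u1, u2, hu⟩ : ∃ u1 u2 : K, u1 * algebraMap k K b1 + u2 * algebraMap k K b2 = 1 := by
    have hinj : ∀ b : k, b ≠ 0 → algebraMap k K b ≠ 0 := fun b hb h =>
      hb ((algebraMap k K).injective (by rw [h, map_zero]))
    by_cases h1 : b1 = 0
    · have h2 : b2 ≠ 0 := fun h2 => hb ⟨h1, h2⟩
      exact ⟨0, (algebraMap k K b2)⁻¹, by rw [zero_mul, zero_add, inv_mul_cancel₀ (hinj _ h2)]⟩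
    · exact ⟨(algebraMap k K b1)⁻¹, 0, by rw [zero_mul, add_zero, inv_mul_cancel₀ (hinj _ h1)]⟩
  refine ⟨![-(b2 * p1) + b1 * p2, b2, -b1], ?_⟩
  have hl : lin (ul K ![-(b2 * p1) + b1 * p2, b2, -b1]) = ll (algebraMap k K p1)
      (algebraMap k K p2) (algebraMap k K b1) (algebraMap k K b2) := by
    rw [lin, Fin.sum_univ_three]
    change C (algebraMap k K (-(b2 * p1) + b1 * p2)) * X 0 + C (algebraMap k K b2) * X 1 +
      C (algebraMap k K (-b1)) * X 2 = _
    rw [ll, m1, m2]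
    simp only [map_add, map_neg, map_mul]
    ring
  rw [hl]
  refine line_core _ _ _ _ u1 u2 hu ha hG hG' hne ?_
  refine ⟨Polynomial.C (eval (fun i => algebraMap k K (y i)) R)⁻¹ *
    ph (algebraMap k K p1) (algebraMap k K p2) (algebraMap k K b1) (algebraMap k K b2) A,
    Polynomial.C (eval (fun i => algebraMap k K (y i)) R)⁻¹ *
    ph (algebraMap k K p1) (algebraMap k K p2) (algebraMap k K b1) (algebraMap k K b2) B, ?_⟩
  obtain ⟨c, hc⟩ : ∃ c, c = eval (fun i => algebraMap k K (y i)) R := ⟨_, rfl⟩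
  rw [← hc] at hphR hy ⊢
  have h1 : Polynomial.C c⁻¹ * Polynomial.C c = 1 := by
    rw [← Polynomial.C_mul, inv_mul_cancel₀ hy, Polynomial.C_1]
  rw [← hphR, hR, map_add, map_mul, map_mul] at h1
  linear_combination h1

end Pool.Agent.H63.EE
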