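import Pool.Agent.H63.EE.P3Ba
import Pool.Agent.H27.LV.Curve

/-!
# P3B: choice of the linear forms `l0` and `l1`
-/

set_option autoImplicit false

open MvPolynomial

namespace Pool.Agent.H63.EE

open SC Pool.Agent.H27.LV Pool.Agent.H17.VG Pool.Agent.H30.EE

variable {k K : Type} [Field k] [Field K] [Algebra k K] {n : ℕ}

theorem el_zero (x : Fin (n + 1) → K) : H30.EE.el (0 : Fin (n + 1) → k) x = 0 := by
  unfold H30.EE.el
  exact Finset.sum_eq_zero fun i _ => by rw [Pi.zero_apply, map_zero, zero_mul]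

theorem el_add' (l l' : Fin (n + 1) → k) (x : Fin (n + 1) → K) :
    H30.EE.el (l + l') x = H30.EE.el l x + H30.EE.el l' x := by
  have h := el_add l l' 1 x
  rwa [one_smul, map_one, one_mul] at h

theorem el_smul' (c : k) (l : Fin (n + 1) → k) (x : Fin (n + 1) → K) :
    H30.EE.el (c • l) x = algebraMap k K c * H30.EE.el l x := by
  have h := el_add 0 l c x
  rwa [zero_add, el_zero, zero_add] at h

theorem el_single (i : Fin (n + 1)) (x : Fin (n + 1) → K) :
    H30.EE.el (Pi.single i (1 : k)) x = x i := by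
  classical
  unfold H30.EE.el
  rw [Finset.sum_eq_single i]
  · rw [Pi.single_eq_same, map_one, one_mul]
  · intro j _ hj
    rw [Pi.single_eq_of_ne hj, map_zero, zero_mul]
  · intro h
    exact absurd (Finset.mem_univ i) h

/-- linear forms with value of order at least `a` -/
def Bv (v : DV k K) (a : ℤ) (x : Fin (n + 1) → K) : Submodule k (Fin (n + 1) → k) where
  carrier := {l | ge v a (H30.EE.el l x)}
  add_mem' := by
    intro l l' h h'
    change ge v a (H30.EE.el (l + l') x)
    rw [el_add']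
    exact ge.add h h'
  zero_mem' := by
    change ge v a (H30.EE.el 0 x)
    rw [el_zero]
    exact ge_zero v a
  smul_mem' := by
    intro c l h
    change ge v a (H30.EE.el (c • l) x)
    rw [el_smul']
    have := (ge_const v c).mul h
    rwa [zero_add] at this

theorem mem_Bv {v : DV k K} {a : ℤ} {x : Fin (n + 1) → K} {l : Fin (n + 1) → k} :
    l ∈ Bv v a x ↔ ge v a (H30.EE.el l x) := Iff.rfl

/-- linear forms which vanish at `x` -/
def B0 (k : Type) [Field k] [Algebra k K] (x : Fin (n + 1) → K) :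
    Submodule k (Fin (n + 1) → k) where
  carrier := {l | H30.EE.el l x = 0}
  add_mem' := by
    intro l l' h h'
    change H30.EE.el (l + l') x = 0
    rw [el_add', show H30.EE.el l x = 0 from h, show H30.EE.el l' x = 0 from h', add_zero]
  zero_mem' := el_zero x
  smul_mem' := by
    intro c l h
    change H30.EE.el (c • l) x = 0
    rw [el_smul', show H30.EE.el l x = 0 from h, mul_zero]

theorem ge_el {v : DV k K} {a : ℤ} {x : Fin (n + 1) → K} (h : ∀ i, ge v a (x i))
    (l : Fin (n + 1) → k) : ge v a (H30.EE.el l x) := by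
  unfold H30.EE.el
  refine ge_sum v _ _ _ fun i _ => ?_
  have := (ge_const v (l i)).mul (h i)
  rwa [zero_add] at this

/-- the map with range `A ⊔ l Sd` -/
noncomputable def EE (A : Submodule K (MvPolynomial (Fin (n + 1)) K)) (m : ℕ)
    (l : Fin (n + 1) → k) : (A × Sd K n m) →ₗ[K] MvPolynomial (Fin (n + 1)) K :=
  LinearMap.coprod A.subtype ((LinearMap.mulLeft K (lin (ul K l))).comp (Sd K n m).subtype)

theorem range_EE (A : Submodule K (MvPolynomial (Fin (n + 1)) K)) (m : ℕ)
    (l : Fin (n + 1) → k) :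
    LinearMap.range (EE A m l) = A ⊔ mulW (lin (ul K l)) (Sd K n m) := by
  rw [EE, LinearMap.range_coprod, Submodule.range_subtype, LinearMap.range_comp,
    Submodule.range_subtype]
  rfl

theorem EE_add (A : Submodule K (MvPolynomial (Fin (n + 1)) K)) (m : ℕ)
    (l l' : Fin (n + 1) → k) (t : k) : EE A m (l + t • l') = EE A m l + algebraMap k K t •
      (LinearMap.coprod 0 ((LinearMap.mulLeft K (lin (ul K l'))).comp (Sd K n m).subtype)) := by
  apply LinearMap.ext
  rintro ⟨a, g⟩
  change (a : MvPolynomial (Fin (n + 1)) K) + lin (ul K (l + t • l')) * g =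
    (a + lin (ul K l) * g) + algebraMap k K t • ((0 : MvPolynomial (Fin (n + 1)) K) +
      lin (ul K l') * g)
  rw [ul_add, smul_eq_C_mul]
  ring

theorem exists_max_nat {V : Type} [Nonempty V] (N : V → ℕ) (M : ℕ) (h : ∀ l, N l ≤ M) :
    ∃ l, ∀ l', N l' ≤ N l := by
  have h1 : (Set.range N).Nonempty := Set.range_nonempty N
  have h2 : BddAbove (Set.range N) := ⟨M, by rintro _ ⟨l, rfl⟩; exact h l⟩
  obtain ⟨l, hl⟩ := Nat.sSup_mem h1 h2
  exact ⟨l, fun l' => hl ▸ le_csSup h2 ⟨l', rfl⟩⟩

theorem pf_P3B (hMO : T_MO) (hHG : T_HG) : T_P3B := by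
  classical
  intro k K _ _ _ _ _ _ htr n m x hx A hA hl
  have : Infinite k := inferInstance
  have : CharZero K := charZero_of_injective_algebraMap (algebraMap k K).injective
  have hfin := finite_Sd (K := K) n (m + 1)
  have hfm := finite_Sd (K := K) n m
  have hU : ∀ l : Fin (n + 1) → k, A ⊔ mulW (lin (ul K l)) (Sd K n m) ≤ Sd K n (m + 1) := by
    intro l
    refine sup_le hA ?_
    rw [Nat.add_comm m 1]
    exact mulW_le (isHomogeneous_lin _) le_rfl
  have hAf : Module.Finite K A := Submodule.finiteDimensional_of_le hA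
  -- choice of `l0`
  have hQ1 : Opn (k := k) fun l : Fin (n + 1) → k => ∀ l' : Fin (n + 1) → k,
      Module.finrank K ↥(A ⊔ mulW (lin (ul K l')) (Sd K n m)) ≤
        Module.finrank K ↥(A ⊔ mulW (lin (ul K l)) (Sd K n m)) := by
    refine ⟨exists_max_nat (fun l : Fin (n + 1) → k =>
      Module.finrank K ↥(A ⊔ mulW (lin (ul K l)) (Sd K n m))) (Module.finrank K (Sd K n (m + 1)))
      (fun l => Submodule.finrank_mono (hU l)), fun l l' h => ?_⟩
    have h1 := finite_rank_lt (k := k) (EE A m l) (LinearMap.coprod 0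
      ((LinearMap.mulLeft K (lin (ul K l'))).comp (Sd K n m).subtype))
    refine h1.subset ?_
    intro t ht hle
    apply ht
    intro l''
    rw [← EE_add, range_EE, range_EE] at hle
    exact (h l'').trans hle
  have hQ2 : Opn (k := k) fun l : Fin (n + 1) → k => l ∉ B0 k x := by
    apply Opn.notMem
    by_contra hcon
    push Not at hcon
    apply hx
    funext i
    have h1 : H30.EE.el (Pi.single i (1 : k)) x = 0 := hcon _
    rwa [el_single] at h1
  obtain ⟨l0, h0, h0'⟩ := (hQ1.and hQ2).ne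
  have he0 : H30.EE.el l0 x ≠ 0 := h0'
  -- choice of `l1`
  have hMx := fun v : DV k K => (hMO k K v (Fin (n + 1)) x).2 hx
  have hF : ({v : DV k K | mo v x ≠ 0} ∪ {v : DV k K | v.ord (H30.EE.el l0 x) ≠ 0}).Finite :=
    (hHG k K htr (Fin (n + 1)) x).1.union (pfm k K htr (H30.EE.el l0 x)).1
  have hQ3 := Opn.pow (k := k) (m + 1) _ (hU l0) (hl l0)
  have hQ4 : Opn (k := k) fun l : Fin (n + 1) → k => ∀ v ∈ hF.toFinset, l ∉ Bv v (mo v x + 1) x := by
    apply Opn.finset
    intro v _
    apply Opn.notMem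
    obtain ⟨i, hi, hi'⟩ := (hMx v).2.1
    refine ⟨Pi.single i 1, ?_⟩
    rw [mem_Bv, el_single]
    rintro (h | h)
    · exact hi h
    · omega
  obtain ⟨l1, h1, h1'⟩ := (hQ3.and hQ4).ne
  refine ⟨l0, l1, he0, h0, h1, ?_⟩
  unfold hgt
  congr 1
  refine finsum_congr fun v => ?_
  have hPne : ![H30.EE.el l0 x, H30.EE.el l1 x] ≠ 0 := by
    intro h
    exact he0 (congrFun h 0)
  have hMP := (hMO k K v (Fin 2) ![H30.EE.el l0 x, H30.EE.el l1 x]).2 hPne
  apply le_antisymm
  · by_contra hcon
    rw [not_le] at hcon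
    have g0 : ge v (mo v x + 1) (H30.EE.el l0 x) := (hMP.1 0).mono (by omega)
    have g1 : ge v (mo v x + 1) (H30.EE.el l1 x) := (hMP.1 1).mono (by omega)
    by_cases hv : v ∈ hF.toFinset
    · exact h1' v hv g1
    · rw [Set.Finite.mem_toFinset, Set.mem_union, not_or] at hv
      have e1 : mo v x = 0 := not_not.1 hv.1
      have e2 : v.ord (H30.EE.el l0 x) = 0 := not_not.1 hv.2
      rcases g0 with g0 | g0
      · exact he0 g0
      · omega
  · refine hMP.2.2.1 _ fun i => ?_
    fin_cases i
    · exact ge_el (hMx v).1 l0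
    · exact ge_el (hMx v).1 l1

end Pool.Agent.H63.EE
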