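import Pool.Agent.H30.EE.TargetsP

/-!
# LNE, part a: restriction of ternary forms to a line
-/

set_option autoImplicit false

open Polynomial

namespace Pool.Agent.H63.EE

open SC Pool.Agent.H27.LV Pool.Agent.H17.VG Pool.Agent.H30.EE

/-- a nonzero polynomial has a nonzero value at a constant point -/
theorem exists_eval_ne {k K : Type} [Field k] [Infinite k] [Field K] [Algebra k K] {n : ℕ}
    {p : MvPolynomial (Fin n) K} (hp : p ≠ 0) :
    ∃ x : Fin n → k, MvPolynomial.eval (fun i => algebraMap k K (x i)) p ≠ 0 := by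
  by_contra hcon
  push Not at hcon
  apply hp
  have hinf : ∀ _ : Fin n, (Set.range (algebraMap k K)).Infinite := fun _ =>
    Set.infinite_range_of_injective (algebraMap k K).injective
  refine MvPolynomial.funext_set (fun _ => Set.range (algebraMap k K)) hinf ?_
  intro x hx
  rw [map_zero]
  choose y hy using fun i => hx i (Set.mem_univ i)
  have h := hcon y
  have h2 : (fun i => algebraMap k K (y i)) = x := funext hy
  rwa [h2] at h

variable {K : Type} [Field K]

/-- restriction to the line through `u` and `w` -/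
noncomputable def phi (u w : Fin 3 → K) : MvPolynomial (Fin 3) K →ₐ[K] K[X] :=
  MvPolynomial.aeval fun i => C (u i) * X + C (w i)

theorem phi_deg (u w : Fin 3 → K) {a : ℕ} {G : MvPolynomial (Fin 3) K} (hG : G.IsHomogeneous a) :
    (phi u w G).natDegree ≤ a ∧ (phi u w G).coeff a = MvPolynomial.eval u G := by
  have hl : ∀ i, (C (u i) * X + C (w i) : K[X]).natDegree ≤ 1 := by
    intro i
    exact natDegree_linear_le
  have hp : ∀ i n, ((C (u i) * X + C (w i) : K[X]) ^ n).natDegree ≤ n := by
    intro i n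
    calc _ ≤ n * (C (u i) * X + C (w i) : K[X]).natDegree := natDegree_pow_le
      _ ≤ n * 1 := Nat.mul_le_mul_left _ (hl i)
      _ = n := Nat.mul_one n
  have hc : ∀ i n, ((C (u i) * X + C (w i) : K[X]) ^ n).coeff n = u i ^ n := by
    intro i n
    have h := coeff_pow_of_natDegree_le (m := n) (hl i)
    rw [Nat.mul_one] at h
    rw [h]
    simp
  have key : ∀ m : Fin 3 →₀ ℕ, m.degree = a → ∀ c : K,
      (phi u w (MvPolynomial.monomial m c)).natDegree ≤ a ∧
      (phi u w (MvPolynomial.monomial m c)).coeff a =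
        MvPolynomial.eval u (MvPolynomial.monomial m c) := by
    intro m hm c
    have hs : a = m 0 + m 1 + m 2 := by
      rw [← hm, Finsupp.degree_eq_sum, Fin.sum_univ_three]
    have e1 : phi u w (MvPolynomial.monomial m c) = C c * ((C (u 0) * X + C (w 0)) ^ m 0 *
        (C (u 1) * X + C (w 1)) ^ m 1 * (C (u 2) * X + C (w 2)) ^ m 2) := by
      rw [phi, MvPolynomial.aeval_monomial, Finsupp.prod_fintype _ _ (by simp),
        Fin.prod_univ_three]
      rfl
    have e2 : MvPolynomial.eval u (MvPolynomial.monomial m c) = c * (u 0 ^ m 0 *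
        u 1 ^ m 1 * u 2 ^ m 2) := by
      rw [MvPolynomial.eval_monomial, Finsupp.prod_fintype _ _ (by simp), Fin.prod_univ_three]
    have d1 : ((C (u 0) * X + C (w 0) : K[X]) ^ m 0 * (C (u 1) * X + C (w 1)) ^ m 1).natDegree ≤
        m 0 + m 1 := (natDegree_mul_le).trans (Nat.add_le_add (hp _ _) (hp _ _))
    have d2 : ((C (u 0) * X + C (w 0) : K[X]) ^ m 0 * (C (u 1) * X + C (w 1)) ^ m 1 *
        (C (u 2) * X + C (w 2)) ^ m 2).natDegree ≤ m 0 + m 1 + m 2 :=
      (natDegree_mul_le).trans (Nat.add_le_add d1 (hp _ _))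
    rw [e1, e2, hs]
    refine ⟨(natDegree_C_mul_le _ _).trans d2, ?_⟩
    rw [coeff_C_mul, coeff_mul_add_eq_of_natDegree_le d1 (hp _ _),
      coeff_mul_add_eq_of_natDegree_le (hp _ _) (hp _ _), hc, hc, hc]
  rw [G.as_sum, map_sum, map_sum]
  have hs : ∀ m ∈ G.support, m.degree = a := by
    intro m hm
    by_contra hne
    exact MvPolynomial.mem_support_iff.1 hm (hG.coeff_eq_zero hne)
  constructor
  · exact natDegree_sum_le_of_forall_le _ _ fun m hm => (key m (hs m hm) _).1
  · rw [finsetSum_coeff]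
    exact Finset.sum_congr rfl fun m hm => (key m (hs m hm) _).2

/-- solution of `A P + B Q = h` in small degrees -/
theorem small_bezout {P Q h : K[X]} {a : ℕ} (hP : P.natDegree = a) (hQ : Q.natDegree ≤ a)
    (ha : 1 ≤ a) (hPQ : IsCoprime P Q) (hh : h.natDegree < 2 * a) :
    ∃ A B : K[X], A.natDegree < a ∧ B.natDegree < a ∧ A * P + B * Q = h := by
  obtain ⟨u, v, huv⟩ := hPQ
  have hP0 : P ≠ 0 := by
    intro h0
    rw [h0, natDegree_zero] at hP
    omega
  obtain ⟨B, hB⟩ : ∃ B, B = (h * v) % P := ⟨_, rfl⟩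
  obtain ⟨A, hA⟩ : ∃ A, A = h * u + Q * ((h * v) / P) := ⟨_, rfl⟩
  have hBd : B.natDegree < a := by
    rw [hB, ← hP]
    exact natDegree_mod_lt _ (by omega)
  have heq : A * P + B * Q = h := by
    have h1 : P * ((h * v) / P) + (h * v) % P = h * v := EuclideanDomain.div_add_mod _ _
    rw [hA, hB]
    linear_combination h * huv + Q * h1
  refine ⟨A, B, ?_, hBd, heq⟩
  by_cases hA0 : A = 0
  · rw [hA0, natDegree_zero]
    omega
  have h2 : A * P = h - B * Q := by rw [← heq]; ring
  have h3 : (A * P).natDegree = A.natDegree + P.natDegree := natDegree_mul hA0 hP0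
  have h4 : (h - B * Q).natDegree < 2 * a := by
    refine lt_of_le_of_lt (natDegree_sub_le _ _) (max_lt hh ?_)
    refine lt_of_le_of_lt natDegree_mul_le ?_
    omega
  rw [← h2, h3, hP] at h4
  omega

end Pool.Agent.H63.EE
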