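import Pool.Agent.H30.EE.TargetsP
import Pool.Agent.H63.EE.LNE

/-!
# P3B, part a: open conditions on constant linear forms
-/

set_option autoImplicit false

open MvPolynomial

namespace Pool.Agent.H63.EE

open SC Pool.Agent.H27.LV Pool.Agent.H17.VG Pool.Agent.H30.EE

section Open

variable {k : Type} [Field k] {V : Type} [AddCommGroup V] [Module k V]

/-- a nonempty condition which holds at almost all points of each line through a point where it
holds -/
structure Opn (P : V → Prop) : Prop where
  ne : ∃ l, P l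
  fin : ∀ l l', P l → {t : k | ¬ P (l + t • l')}.Finite

theorem Opn.and [Infinite k] {P Q : V → Prop} (hP : Opn (k := k) P) (hQ : Opn (k := k) Q) :
    Opn (k := k) fun l => P l ∧ Q l := by
  constructor
  · obtain ⟨l1, h1⟩ := hP.ne
    obtain ⟨l2, h2⟩ := hQ.ne
    have f1 := hP.fin l1 (l2 - l1) h1
    have f2 := hQ.fin l2 (l1 - l2) h2
    have f3 : {t : k | ¬ Q (l2 + (1 - t) • (l1 - l2))}.Finite := by
      have : {t : k | ¬ Q (l2 + (1 - t) • (l1 - l2))} =
          (fun t => 1 - t) ⁻¹' {t : k | ¬ Q (l2 + t • (l1 - l2))} := rfl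
      rw [this]
      exact f2.preimage (fun a _ b _ h => by simpa using h)
    obtain ⟨t, ht⟩ := (f1.union f3).exists_notMem
    refine ⟨l1 + t • (l2 - l1), ?_, ?_⟩
    · by_contra h
      exact ht (Or.inl h)
    · by_contra h
      refine ht (Or.inr ?_)
      have e : l2 + (1 - t) • (l1 - l2) = l1 + t • (l2 - l1) := by module
      change ¬ Q _
      rw [e]
      exact h
  · intro l l' h
    refine ((hP.fin l l' h.1).union (hQ.fin l l' h.2)).subset ?_
    intro t ht
    by_contra hcon
    rw [Set.mem_union, not_or] at hcon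
    exact ht ⟨not_not.1 hcon.1, not_not.1 hcon.2⟩

theorem Opn.true : Opn (k := k) fun _ : V => True :=
  ⟨⟨0, trivial⟩, fun l l' _ => by simp⟩

theorem Opn.finset [Infinite k] {ι : Type*} (s : Finset ι) (P : ι → V → Prop)
    (h : ∀ i ∈ s, Opn (k := k) (P i)) : Opn (k := k) fun l => ∀ i ∈ s, P i l := by
  classical
  induction s using Finset.induction_on with
  | empty => simpa using Opn.true (k := k) (V := V)
  | insert a s _ ih =>
    have h1 := (h a (Finset.mem_insert_self _ _)).and
      (ih fun i hi => h i (Finset.mem_insert_of_mem hi))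
    have e : (fun l => ∀ i ∈ insert a s, P i l) = fun l => P a l ∧ ∀ i ∈ s, P i l := by
      funext l
      rw [Finset.forall_mem_insert]
    rw [e]
    exact h1

/-- outside a proper subspace -/
theorem Opn.notMem (B : Submodule k V) (h : ∃ l, l ∉ B) : Opn (k := k) fun l => l ∉ B := by
  refine ⟨h, fun l l' hl => ?_⟩
  apply Set.Subsingleton.finite
  intro t ht s hs
  have ht' : l + t • l' ∈ B := not_not.1 ht
  have hs' : l + s • l' ∈ B := not_not.1 hs
  by_contra hne
  have h1 : (t - s) • l' ∈ B := by
    have := B.sub_mem ht' hs'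
    rwa [add_sub_add_left_eq_sub, ← sub_smul] at this
  have h2 : l' ∈ B := by
    have := B.smul_mem (t - s)⁻¹ h1
    rwa [smul_smul, inv_mul_cancel₀ (sub_ne_zero.2 hne), one_smul] at this
  apply hl
  have := B.sub_mem ht' (B.smul_mem t h2)
  rwa [add_sub_cancel_right] at this

end Open

section Semi

variable {k K : Type} [Field k] [Field K] [Algebra k K]

/-- `1 + t M` is injective for almost all `t` -/
theorem finite_not_injective {V : Type} [AddCommGroup V] [Module K V] [FiniteDimensional K V]
    (M : V →ₗ[K] V) : {t : k | ¬ Function.Injective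
      (LinearMap.id + algebraMap k K t • M : V →ₗ[K] V)}.Finite := by
  have hfin : {c : K | Module.End.HasEigenvalue M c}.Finite := by
    exact Module.End.finite_hasEigenvalue M
  have h2 : {t : k | Module.End.HasEigenvalue M (-(algebraMap k K t)⁻¹)}.Finite := by
    refine (hfin.preimage (f := fun t : k => -(algebraMap k K t)⁻¹) ?_)
    intro a _ b _ h
    have h3 : (algebraMap k K a)⁻¹ = (algebraMap k K b)⁻¹ := neg_injective h
    exact (algebraMap k K).injective (inv_injective h3)
  refine h2.subset ?_
  intro t ht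
  have ht' : ¬ Function.Injective (LinearMap.id + algebraMap k K t • M : V →ₗ[K] V) := ht
  rw [← LinearMap.ker_eq_bot] at ht'
  obtain ⟨w, hw, hw0⟩ := Submodule.exists_mem_ne_zero_of_ne_bot ht'
  rw [LinearMap.mem_ker] at hw
  have e1 : w + algebraMap k K t • M w = 0 := hw
  have t0 : algebraMap k K t ≠ 0 := by
    intro h
    rw [h, zero_smul, add_zero] at e1
    exact hw0 e1
  change Module.End.HasEigenvalue M (-(algebraMap k K t)⁻¹)
  refine Module.End.hasEigenvalue_of_hasEigenvector (x := w) ?_
  rw [Module.End.hasEigenvector_iff, Module.End.mem_eigenspace_iff]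
  refine ⟨?_, hw0⟩
  have e2 : algebraMap k K t • M w = -w := by
    rw [eq_neg_iff_add_eq_zero, add_comm]
    exact e1
  have e3 := congrArg (fun y => (algebraMap k K t)⁻¹ • y) e2
  simp only [smul_smul, inv_mul_cancel₀ t0, one_smul, smul_neg] at e3
  rw [e3, neg_smul]

/-- the rank is lower semicontinuous on a line -/
theorem finite_rank_lt {V W : Type} [AddCommGroup V] [Module K V] [FiniteDimensional K V]
    [AddCommGroup W] [Module K W] (E0 E1 : V →ₗ[K] W) :
    {t : k | ¬ (Module.finrank K (LinearMap.range E0) ≤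
      Module.finrank K (LinearMap.range (E0 + algebraMap k K t • E1)))}.Finite := by
  obtain ⟨V', hV'⟩ := Submodule.exists_isCompl (LinearMap.ker E0)
  have hinj : LinearMap.ker (E0.comp V'.subtype) = ⊥ := by
    rw [LinearMap.ker_comp]
    have := hV'.disjoint
    rw [Submodule.eq_bot_iff]
    intro x hx
    have h1 : (x : V) ∈ LinearMap.ker E0 ⊓ V' := ⟨hx, x.2⟩
    rw [disjoint_iff.1 this] at h1
    exact Subtype.ext h1
  obtain ⟨R, hR⟩ := LinearMap.exists_leftInverse_of_injective _ hinj
  refine (finite_not_injective (k := k) (R.comp (E1.comp V'.subtype))).subset ?_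
  intro t ht
  by_contra hcon
  have hinj2 : Function.Injective (LinearMap.id + algebraMap k K t • R.comp (E1.comp V'.subtype) :
      V' →ₗ[K] V') := not_not.1 hcon
  apply ht
  have e1 : R.comp ((E0 + algebraMap k K t • E1).comp V'.subtype) =
      LinearMap.id + algebraMap k K t • R.comp (E1.comp V'.subtype) := by
    rw [← hR]
    ext x
    simp
  have hinj3 : Function.Injective ((E0 + algebraMap k K t • E1).comp V'.subtype) := by
    intro a b hab
    apply hinj2
    rw [← e1, LinearMap.comp_apply, hab, ← LinearMap.comp_apply]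
  have e2 : Module.finrank K (LinearMap.range E0) = Module.finrank K V' := by
    have h1 : LinearMap.range (E0.comp V'.subtype) = LinearMap.range E0 := by
      apply le_antisymm (LinearMap.range_comp_le_range _ _)
      rintro _ ⟨x, rfl⟩
      obtain ⟨y, hy, z, hz, rfl⟩ := Submodule.mem_sup.1
        (show x ∈ LinearMap.ker E0 ⊔ V' by rw [hV'.sup_eq_top]; trivial)
      refine ⟨⟨z, hz⟩, ?_⟩
      rw [map_add, LinearMap.mem_ker.1 hy, zero_add]
      rfl
    rw [← h1]
    exact LinearMap.finrank_range_of_inj (LinearMap.ker_eq_bot.1 hinj)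
  rw [e2, ← LinearMap.finrank_range_of_inj hinj3]
  exact Submodule.finrank_mono (LinearMap.range_comp_le_range _ _)

end Semi

section Powers

variable {k K : Type} [Field k] [Field K] [Algebra k K] {n : ℕ}

theorem ul_add (l l' : Fin (n + 1) → k) (t : k) :
    lin (ul K (l + t • l')) = lin (ul K l) + C (algebraMap k K t) * lin (ul K l') := by
  unfold lin
  rw [Finset.mul_sum, ← Finset.sum_add_distrib]
  refine Finset.sum_congr rfl fun i _ => ?_
  change C (algebraMap k K (l i + t * l' i)) * X i = C (algebraMap k K (l i)) * X i +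
    C (algebraMap k K t) * (C (algebraMap k K (l' i)) * X i)
  rw [map_add, map_mul, C_add, C_mul]
  ring

theorem el_add (l l' : Fin (n + 1) → k) (t : k) (x : Fin (n + 1) → K) :
    H30.EE.el (l + t • l') x = H30.EE.el l x + algebraMap k K t * H30.EE.el l' x := by
  unfold H30.EE.el
  rw [Finset.mul_sum, ← Finset.sum_add_distrib]
  refine Finset.sum_congr rfl fun i _ => ?_
  change algebraMap k K (l i + t * l' i) * x i = _
  rw [map_add, map_mul]
  ring

/-- a functional on the powers of a pencil of linear forms is a polynomial -/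
theorem finite_phi (φ : MvPolynomial (Fin (n + 1)) K →ₗ[K] K) (N : ℕ) (l l' : Fin (n + 1) → k)
    (h : φ (lin (ul K l) ^ N) ≠ 0) : {t : k | φ (lin (ul K (l + t • l')) ^ N) = 0}.Finite := by
  obtain ⟨q, hq⟩ : ∃ q : Polynomial K, q = ∑ j ∈ Finset.range (N + 1),
      Polynomial.C (φ (lin (ul K l) ^ j * lin (ul K l') ^ (N - j) * (N.choose j : ℕ))) *
        Polynomial.X ^ (N - j) := ⟨_, rfl⟩
  have hqe : ∀ t : k, q.eval (algebraMap k K t) = φ (lin (ul K (l + t • l')) ^ N) := by
    intro t
    rw [hq, Polynomial.eval_finsetSum, ul_add, add_pow, map_sum]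
    refine Finset.sum_congr rfl fun j _ => ?_
    rw [Polynomial.eval_mul, Polynomial.eval_C, Polynomial.eval_pow, Polynomial.eval_X]
    have e : lin (ul K l) ^ j * (C (algebraMap k K t) * lin (ul K l')) ^ (N - j) *
        ((N.choose j : ℕ) : MvPolynomial (Fin (n + 1)) K) =
        (algebraMap k K t) ^ (N - j) • (lin (ul K l) ^ j * lin (ul K l') ^ (N - j) *
          ((N.choose j : ℕ) : MvPolynomial (Fin (n + 1)) K)) := by
      rw [smul_eq_C_mul, mul_pow, ← map_pow]
      ring
    rw [e, map_smul, smul_eq_mul, mul_comm]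
  have hq0 : q ≠ 0 := by
    intro h0
    apply h
    have := hqe 0
    rw [h0, Polynomial.eval_zero, zero_smul, add_zero] at this
    exact this.symm
  have h1 : {t : k | φ (lin (ul K (l + t • l')) ^ N) = 0} =
      (algebraMap k K) ⁻¹' {c | q.IsRoot c} := by
    ext t
    rw [Set.mem_preimage, Set.mem_ofPred_eq, Set.mem_ofPred_eq, Polynomial.IsRoot, hqe]
  rw [h1]
  exact (Polynomial.finite_setOfPred_isRoot hq0).preimage (algebraMap k K).injective.injOn

/-- powers of constant linear forms span the forms -/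
theorem Sd_le_of_pow [Infinite k] [CharZero K] (N : ℕ)
    (W : Submodule K (MvPolynomial (Fin (n + 1)) K))
    (h : ∀ l : Fin (n + 1) → k, lin (ul K l) ^ N ∈ W) : Sd K n N ≤ W := by
  classical
  intro g hg
  have hg' : g.IsHomogeneous N := hg
  by_contra hgW
  obtain ⟨φ, hφ, hker⟩ := Submodule.exists_le_ker_of_notMem hgW
  apply hφ
  obtain ⟨p, hp⟩ : ∃ p : MvPolynomial (Fin (n + 1)) K,
      p = ∑ f ∈ Finset.univ.piAntidiag N, C ((Nat.multinomial Finset.univ f : K) *
        φ (mono K f)) * mono K f := ⟨_, rfl⟩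
  have hmono : ∀ f : Fin (n + 1) → ℕ, mono K f = ∏ i, X i ^ f i := by
    intro f
    rw [mono, monomial_eq, C_1, one_mul, Finsupp.prod_fintype _ _ (by simp)]
    rfl
  have hp0 : p = 0 := by
    by_contra hne
    obtain ⟨l, hl⟩ := exists_eval_ne (k := k) hne
    apply hl
    have h1 : φ (lin (ul K l) ^ N) = 0 := hker (h l)
    rw [lin, Finset.sum_pow_eq_sum_piAntidiag, map_sum] at h1
    rw [hp, map_sum, ← h1]
    refine Finset.sum_congr rfl fun f _ => ?_
    have e1 : ∏ i, (C (ul K l i) * X i : MvPolynomial (Fin (n + 1)) K) ^ f i =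
        (∏ i, algebraMap k K (l i) ^ f i) • mono K f := by
      rw [hmono, smul_eq_C_mul, map_prod, ← Finset.prod_mul_distrib]
      refine Finset.prod_congr rfl fun i _ => ?_
      rw [mul_pow, map_pow]
      rfl
    have e2 : ((Nat.multinomial Finset.univ f : ℕ) : MvPolynomial (Fin (n + 1)) K) *
        ∏ i, (C (ul K l i) * X i) ^ f i = ((Nat.multinomial Finset.univ f : K) *
          ∏ i, algebraMap k K (l i) ^ f i) • mono K f := by
      rw [e1, smul_eq_C_mul, smul_eq_C_mul, C_mul, ← mul_assoc]
      congr 2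
    rw [e2, map_smul, smul_eq_mul, map_mul, eval_C, eval_mono]
    ring
  have hcoef : ∀ m : Fin (n + 1) →₀ ℕ, m.degree = N → φ (monomial m 1) = 0 := by
    intro m hm
    have hmem : (m : Fin (n + 1) → ℕ) ∈ Finset.univ.piAntidiag N := by
      rw [Finset.mem_piAntidiag]
      refine ⟨?_, fun i _ => Finset.mem_univ i⟩
      rw [← hm, Finsupp.degree_eq_sum]
    have h1 := congrArg (fun r => coeff (fs (m : Fin (n + 1) → ℕ)) r) hp0
    simp only [hp, coeff_sum, coeff_C_mul, coeff_mono, coeff_zero] at h1
    rw [Finset.sum_eq_single (m : Fin (n + 1) → ℕ)] at h1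
    · rw [if_pos rfl, mul_one] at h1
      have h2 : (Nat.multinomial Finset.univ (m : Fin (n + 1) → ℕ) : K) ≠ 0 := by
        rw [Nat.cast_ne_zero]
        exact (Nat.multinomial_pos _ _).ne'
      have h3 := (mul_eq_zero.1 h1).resolve_left h2
      rwa [mono, fs_coe] at h3
    · intro b _ hb
      rw [if_neg hb, mul_zero]
    · intro hn
      exact absurd hmem hn
  rw [g.as_sum, map_sum]
  refine Finset.sum_eq_zero fun m hm => ?_
  have hdeg : m.degree = N := by
    by_contra hne
    exact mem_support_iff.1 hm (hg'.coeff_eq_zero hne)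
  have e : (monomial m (coeff m g) : MvPolynomial (Fin (n + 1)) K) =
      coeff m g • monomial m 1 := by
    rw [smul_monomial, smul_eq_mul, mul_one]
  rw [e, map_smul, hcoef m hdeg, smul_zero]

/-- the condition (i) is open -/
theorem Opn.pow [Infinite k] [CharZero K] (N : ℕ)
    (W : Submodule K (MvPolynomial (Fin (n + 1)) K)) (hW : W ≤ Sd K n N) (hne : W ≠ Sd K n N) :
    Opn (k := k) fun l : Fin (n + 1) → k => lin (ul K l) ^ N ∉ W := by
  refine ⟨?_, fun l l' hl => ?_⟩
  · by_contra hcon
    push Not at hcon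
    exact hne (le_antisymm hW (Sd_le_of_pow N W hcon))
  · obtain ⟨φ, hφ, hker⟩ := Submodule.exists_le_ker_of_notMem hl
    refine (finite_phi φ N l l' hφ).subset ?_
    intro t ht
    exact hker (not_not.1 ht)

end Powers

end Pool.Agent.H63.EE
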